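import Mathlib

set_option autoImplicit false

namespace Pool.Agent.H972Z.Star

/-- `y` sees `x` via `E`: the closed segment from `x` to `y` lies in `E`. -/
def Sees {d : ℕ} (E : Set (EuclideanSpace ℝ (Fin d))) (y x : EuclideanSpace ℝ (Fin d)) : Prop :=
  segment ℝ x y ⊆ E

/-- `E` is starshaped: some point of `E` sees every point of `E`. -/
def Starshaped {d : ℕ} (E : Set (EuclideanSpace ℝ (Fin d))) : Prop :=
  ∃ y ∈ E, ∀ x ∈ E, Sees E y x

/-- `x` is a locally non-convex point of `E`: a boundary point such that `B_r(x) ∩ E` is not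
convex for any `r > 0`. -/
def IsLNC {d : ℕ} (E : Set (EuclideanSpace ℝ (Fin d))) (x : EuclideanSpace ℝ (Fin d)) : Prop :=
  x ∈ frontier E ∧ ∀ r : ℝ, 0 < r → ¬ Convex ℝ (Metric.ball x r ∩ E)

/-- `x` is clearly visible from `y`: `y` sees every point of `B_r(x) ∩ E` for some `r > 0`. -/
def ClearlyVisible {d : ℕ} (E : Set (EuclideanSpace ℝ (Fin d)))
    (x y : EuclideanSpace ℝ (Fin d)) : Prop :=
  ∃ r : ℝ, 0 < r ∧ ∀ w ∈ Metric.ball x r ∩ E, Sees E y w

/-- Property `C_n`: any `n` (not necessarily distinct) LNC points of `E` are clearly visible from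
a single point of `E`. -/
def PropC {d : ℕ} (n : ℕ) (E : Set (EuclideanSpace ℝ (Fin d))) : Prop :=
  ∀ x : Fin n → EuclideanSpace ℝ (Fin d), (∀ i, IsLNC E (x i)) →
    ∃ y ∈ E, ∀ i, ClearlyVisible E (x i) y

end Pool.Agent.H972Z.Star
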