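import Mathlib

set_option autoImplicit false

namespace Pool.Agent.H972Z.Star

open Set Metric Topology

variable {V : Type*} [NormedAddCommGroup V] [NormedSpace ℝ V]

/-- upper level part of `E` -/
def Lev (E : Set V) (f : V →L[ℝ] ℝ) (s : ℝ) : Set V := {w | w ∈ E ∧ s ≤ f w}

/-- strict upper level part of `E` -/
def Pos (E : Set V) (f : V →L[ℝ] ℝ) (c : ℝ) : Set V := {w | w ∈ E ∧ c < f w}

/-- points of `Lev E f s` that cannot be separated from `Pos E f c` inside `Lev E f s` -/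
def Wk (E : Set V) (f : V →L[ℝ] ℝ) (c s : ℝ) : Set V :=
  {w | w ∈ Lev E f s ∧ ∀ C : Set V, IsClosed C → IsClosed (Lev E f s \ C) → Pos E f c ⊆ C → w ∈ C}

theorem isClosed_lev {E : Set V} (hE : IsClosed E) (f : V →L[ℝ] ℝ) (s : ℝ) :
    IsClosed (Lev E f s) :=
  hE.inter (isClosed_le continuous_const f.continuous)

theorem mem_of_preconn {A S C : Set V} (hA : IsPreconnected A) (hAS : A ⊆ S) (hC : IsClosed C)
    (hD : IsClosed (S \ C)) {a b : V} (ha : a ∈ A) (haC : a ∈ C) (hb : b ∈ A) : b ∈ C := by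
  by_contra hbC
  have h := (isPreconnected_closed_iff.1 hA) C (S \ C) hC hD
    (fun x hx => by
      by_cases hx' : x ∈ C
      · exact Or.inl hx'
      · exact Or.inr ⟨hAS hx, hx'⟩) ⟨a, ha, haC⟩ ⟨b, hb, hAS hb, hbC⟩
  obtain ⟨x, -, hx1, -, hx2⟩ := h
  exact hx2 hx1

theorem wk_seg {E : Set V} (hE : IsClosed E) {f : V →L[ℝ] ℝ} {c s s' : ℝ} (hs : s ≤ s')
    {x u : V} (hx : x ∈ Wk E f c s') (hu : segment ℝ u x ⊆ Lev E f s) : u ∈ Wk E f c s := by
  refine ⟨hu (left_mem_segment ℝ u x), fun C hC hD hP => ?_⟩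
  have h1 : Lev E f s' \ C = (Lev E f s \ C) ∩ Lev E f s' := by
    ext w
    constructor
    · rintro ⟨h, h'⟩
      exact ⟨⟨⟨h.1, hs.trans h.2⟩, h'⟩, h⟩
    · rintro ⟨⟨-, h'⟩, h⟩
      exact ⟨h, h'⟩
  have hxC : x ∈ C := hx.2 C hC (by rw [h1]; exact hD.inter (isClosed_lev hE f s')) hP
  exact mem_of_preconn (convex_segment u x).isPreconnected hu hC hD (right_mem_segment ℝ u x) hxC
    (left_mem_segment ℝ u x)

/-- local hypothesis -/
def Loc (E : Set V) (f : V →L[ℝ] ℝ) (c : ℝ) : Prop :=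
  ∀ x ∈ E, ∃ r > 0, Convex ℝ (ball x r ∩ E) ∨
    ∃ p, c < f p ∧ ∀ w ∈ ball x r ∩ E, segment ℝ w p ⊆ E

theorem near {E : Set V} {f : V →L[ℝ] ℝ} {c : ℝ} (hL : Loc E f c) {G : Set V} (hGE : G ⊆ E)
    (hP : Pos E f c ⊆ G) {x : V} (hxE : x ∈ E) (hx : x ∈ closure G) :
    ∃ r > 0, ∀ w ∈ ball x r ∩ E, ∃ x' ∈ G, segment ℝ w x' ⊆ E := by
  obtain ⟨r, hr, h | ⟨p, hp, h⟩⟩ := hL x hxE
  · refine ⟨r, hr, fun w hw => ?_⟩
    obtain ⟨x', hx'G, hx'⟩ := Metric.mem_closure_iff.1 hx r hr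
    refine ⟨x', hx'G, ?_⟩
    have : x' ∈ ball x r ∩ E := ⟨by rw [mem_ball, dist_comm]; exact hx', hGE hx'G⟩
    exact (h.segment_subset hw this).trans inter_subset_right
  · refine ⟨r, hr, fun w hw => ⟨p, hP ⟨h w hw (right_mem_segment ℝ w p), hp⟩, h w hw⟩⟩

theorem open_step {E : Set V} (hE : IsClosed E) {f : V →L[ℝ] ℝ} {c s : ℝ} (hL : Loc E f c)
    {G : Set V} (hG : ∀ x ∈ G, x ∈ E ∧ s < f x) (hP : Pos E f c ⊆ G)
    (hcl : ∀ x ∈ G, ∀ u, s < f u → segment ℝ u x ⊆ E → u ∈ G) :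
    IsClosed (Lev E f s \ closure G) := by
  rw [← closure_subset_iff_isClosed]
  intro x hx
  have hxL : x ∈ Lev E f s :=
    (isClosed_lev hE f s).closure_subset (closure_mono sdiff_subset hx)
  refine ⟨hxL, fun hxG => ?_⟩
  obtain ⟨r, hr, h⟩ := near hL (fun x hx => (hG x hx).1) hP hxL.1 hxG
  obtain ⟨w, ⟨hwL, hwG⟩, hw⟩ := Metric.mem_closure_iff.1 hx r hr
  obtain ⟨x', hx'G, hseg⟩ := h w ⟨by rw [mem_ball, dist_comm]; exact hw, hwL.1⟩
  apply hwG
  have hsub : openSegment ℝ w x' ⊆ G := by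
    intro u hu
    have hus : u ∈ segment ℝ w x' := openSegment_subset_segment ℝ w x' hu
    obtain ⟨a, b, ha, hb, hab, rfl⟩ := hu
    refine hcl x' hx'G _ ?_ ?_
    · have h1 := hwL.2
      have h2 := (hG x' hx'G).2
      simp only [map_add, map_smul, smul_eq_mul]
      have : s = a * s + b * s := by rw [← add_mul, hab, one_mul]
      nlinarith [mul_le_mul_of_nonneg_left h1 ha.le, mul_lt_mul_of_pos_left h2 hb]
    · exact ((convex_segment w x').segment_subset hus (right_mem_segment ℝ w x')).trans hseg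
  exact closure_mono hsub (segment_subset_closure_openSegment (left_mem_segment ℝ w x'))

/-- The sweep lemma. -/
theorem sweep {E : Set V} (hK : IsCompact E) (hE : IsPreconnected E) {f : V →L[ℝ] ℝ} {c : ℝ}
    (hL : Loc E f c) (hne : (Pos E f c).Nonempty) {y : V} (hy : y ∈ E) (hyc : f y = c) :
    ∃ v, c < f v ∧ segment ℝ y v ⊆ E := by
  have hEc : IsClosed E := hK.isClosed
  set T : Set ℝ := {s | s ≤ c ∧ y ∈ Wk E f c s} with hT
  have hTb : BddAbove T := ⟨c, fun s hs => hs.1⟩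
  have hTn : T.Nonempty := by
    obtain ⟨m, hm, hmin⟩ := hK.exists_isMinOn ⟨y, hy⟩ f.continuous.continuousOn
    have hlev : E ⊆ Lev E f (f m) := fun w hw => ⟨hw, hmin hw⟩
    refine ⟨f m, hyc ▸ hmin hy, hlev hy, fun C hC hD hP => ?_⟩
    obtain ⟨p, hp⟩ := hne
    exact mem_of_preconn hE hlev hC hD hp.1 (hP hp) hy
  set σ := sSup T with hσ
  have hσc : σ ≤ c := csSup_le hTn fun s hs => hs.1
  have hyσ : y ∈ Wk E f c σ := by
    refine ⟨⟨hy, hyc ▸ hσc⟩, fun C hC hD hP => ?_⟩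
    by_contra hyC
    have hD' : IsClosed (Lev E f σ ∩ C) := (isClosed_lev hEc f σ).inter hC
    have hdisj : Disjoint (Lev E f σ \ C) (Lev E f σ ∩ C) :=
      Set.disjoint_left.2 fun w h1 h2 => h1.2 h2.2
    obtain ⟨U, U', hU, hU', hDU, hDU', hUU⟩ := normal_separation hD hD' hdisj
    have hKc : IsCompact (E \ (U ∪ U')) := hK.diff (hU.union hU')
    have hlt : ∀ w ∈ E \ (U ∪ U'), f w < σ := by
      intro w hw
      by_contra hge
      push Not at hge
      apply hw.2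
      by_cases hwC : w ∈ C
      · exact Or.inr (hDU' ⟨⟨hw.1, hge⟩, hwC⟩)
      · exact Or.inl (hDU ⟨⟨hw.1, hge⟩, hwC⟩)
    obtain ⟨s₁, hs₁, hs₁'⟩ : ∃ s₁ < σ, ∀ w ∈ E \ (U ∪ U'), f w ≤ s₁ := by
      rcases (E \ (U ∪ U')).eq_empty_or_nonempty with h0 | h0
      · exact ⟨σ - 1, by linarith, fun w hw => by rw [h0] at hw; exact hw.elim⟩
      · obtain ⟨m, hm, hmax⟩ := hKc.exists_isMaxOn h0 f.continuous.continuousOn
        exact ⟨f m, hlt m hm, fun w hw => hmax hw⟩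
    obtain ⟨s, hsT, hs⟩ := exists_lt_of_lt_csSup hTn hs₁
    have hsσ : s ≤ σ := le_csSup hTb hsT
    have hcov : ∀ w ∈ Lev E f s, w ∈ U ∪ U' := by
      intro w hw
      by_contra hn
      have := hs₁' w ⟨hw.1, hn⟩
      have := hw.2
      linarith
    have h1 : Lev E f s \ (Lev E f s \ U) = Lev E f s \ U' := by
      ext w
      constructor
      · rintro ⟨hw, hw'⟩
        refine ⟨hw, fun hwU' => hw' ⟨hw, fun hwU => ?_⟩⟩
        exact Set.disjoint_left.1 hUU hwU hwU'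
      · rintro ⟨hw, hw'⟩
        refine ⟨hw, fun h => h.2 ?_⟩
        rcases hcov w hw with h' | h'
        · exact h'
        · exact absurd h' hw'
    have hyC' := hsT.2.2 (Lev E f s \ U) ((isClosed_lev hEc f s).sdiff hU)
      (by rw [h1]; exact (isClosed_lev hEc f s).sdiff hU') (by
        intro p hp
        refine ⟨⟨hp.1, (hsT.1.trans hp.2.le)⟩, fun hpU => ?_⟩
        exact Set.disjoint_left.1 hUU hpU (hDU' ⟨⟨hp.1, hσc.trans hp.2.le⟩, hP hp⟩))
    exact hyC'.2 (hDU ⟨⟨hy, hyc ▸ hσc⟩, hyC⟩)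
  rcases hσc.eq_or_lt with h | h
  · have hcl := open_step (s := σ) hEc hL (G := Pos E f c) (fun x hx => ⟨hx.1, h ▸ hx.2⟩)
      Subset.rfl (fun x _ u hu hseg => ⟨hseg (left_mem_segment ℝ u x), h ▸ hu⟩)
    have hyG := hyσ.2 _ isClosed_closure hcl subset_closure
    obtain ⟨r, hr, hh⟩ := near hL (G := Pos E f c) (fun x hx => hx.1) Subset.rfl hy hyG
    obtain ⟨v, hv, hseg⟩ := hh y ⟨mem_ball_self hr, hy⟩
    exact ⟨v, hv.2, hseg⟩
  · exfalso
    set G : Set V := {w | ∃ s', σ < s' ∧ s' ≤ c ∧ w ∈ Wk E f c s'} with hG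
    have hG1 : ∀ x ∈ G, x ∈ E ∧ σ < f x := by
      rintro x ⟨s', h1, -, h2⟩
      exact ⟨h2.1.1, h1.trans_le h2.1.2⟩
    have hG2 : Pos E f c ⊆ G := fun p hp =>
      ⟨c, h, le_rfl, ⟨hp.1, hp.2.le⟩, fun C _ _ hP => hP hp⟩
    have hG3 : ∀ x ∈ G, ∀ u, σ < f u → segment ℝ u x ⊆ E → u ∈ G := by
      rintro x ⟨s', h1, h2, h3⟩ u hu hseg
      refine ⟨min s' (f u), lt_min h1 hu, (min_le_left _ _).trans h2,
        wk_seg hEc (min_le_left _ _) h3 ?_⟩
      intro w hw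
      refine ⟨hseg hw, ?_⟩
      obtain ⟨a, b, ha, hb, hab, rfl⟩ := hw
      have e1 : min s' (f u) ≤ f u := min_le_right _ _
      have e2 : min s' (f u) ≤ f x := (min_le_left _ _).trans h3.1.2
      simp only [map_add, map_smul, smul_eq_mul]
      have : min s' (f u) = a * min s' (f u) + b * min s' (f u) := by
        rw [← add_mul, hab, one_mul]
      nlinarith [mul_le_mul_of_nonneg_left e1 ha, mul_le_mul_of_nonneg_left e2 hb]
    have hcl := open_step (s := σ) hEc hL hG1 hG2 hG3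
    have hyG := hyσ.2 _ isClosed_closure hcl (hG2.trans subset_closure)
    obtain ⟨r, hr, hh⟩ := near hL (fun x hx => (hG1 x hx).1) hG2 hy hyG
    obtain ⟨v, hv, hseg⟩ := hh y ⟨mem_ball_self hr, hy⟩
    obtain ⟨s', h1, h2, h3⟩ := hG3 v hv y (hyc ▸ h) hseg
    have : s' ≤ σ := le_csSup hTb ⟨h2, h3⟩
    linarith

section Inner

variable {H : Type*} [NormedAddCommGroup H] [InnerProductSpace ℝ H]

open RealInnerProductSpace

/-- Krasnoselskii's touching lemma. -/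
theorem touch {E : Set H} (hK : IsCompact E) {x z : H} (hx : x ∈ E) (hn : ¬ segment ℝ x z ⊆ E) :
    ∃ y ∈ E, ∃ n : H, ⟪n, y⟫ < ⟪n, z⟫ ∧ ∀ v, segment ℝ y v ⊆ E → ⟪n, v⟫ ≤ ⟪n, y⟫ := by
  rw [segment_eq_image'] at hn
  obtain ⟨u, ⟨s, hs, rfl⟩, hu⟩ := Set.not_subset.1 hn
  set g : ℝ → H := fun t => x + t • (z - x) with hg
  have hgc : Continuous g := by fun_prop
  set δ : ℝ → ℝ := fun t => infDist (g t) E with hδ
  have hδc : Continuous δ := (continuous_infDist_pt E).comp hgc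
  have hpos : 0 < δ s := (hK.isClosed.notMem_iff_infDist_pos ⟨x, hx⟩).1 hu
  set ρ := δ s / 2 with hρ
  have hT : IsCompact (Icc 0 s ∩ {t | δ t ≤ ρ}) :=
    isCompact_Icc.inter_right (isClosed_le hδc continuous_const)
  have h0 : (0 : ℝ) ∈ Icc 0 s ∩ {t | δ t ≤ ρ} := by
    refine ⟨⟨le_rfl, hs.1⟩, ?_⟩
    have : δ 0 = 0 := by simp [hδ, hg, infDist_zero_of_mem hx]
    show δ 0 ≤ ρ
    rw [this]; linarith
  obtain ⟨t₀, ⟨ht₀, ht₀ρ⟩, hmax⟩ := hT.exists_isMaxOn ⟨0, h0⟩ continuous_id.continuousOn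
  have ht₀ρ' : δ t₀ ≤ ρ := ht₀ρ
  have hts : t₀ < s := by
    refine lt_of_le_of_ne ht₀.2 fun h => ?_
    rw [h] at ht₀ρ'; linarith
  have hgt : ∀ t ∈ Ioc t₀ s, ρ < δ t := by
    intro t ht
    by_contra hle
    push Not at hle
    have : t ≤ t₀ := hmax ⟨⟨ht₀.1.trans ht.1.le, ht.2⟩, hle⟩
    linarith [ht.1]
  have hge : ρ ≤ δ t₀ := by
    have hcl : t₀ ∈ closure (Ioc t₀ s) := by
      rw [closure_Ioc hts.ne]; exact ⟨le_rfl, hts.le⟩
    exact (isClosed_le continuous_const hδc).closure_subset_iff.2 (fun t ht => (hgt t ht).le) hcl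
  obtain ⟨y, hy, hyd⟩ := hK.exists_infDist_eq_dist ⟨x, hx⟩ (g t₀)
  set n := g t₀ - y with hnd
  have hnn : ‖n‖ = δ t₀ := by rw [hnd, ← dist_eq_norm]; exact hyd.symm
  have hρ0 : 0 < ρ := by linarith
  have small : ∀ (A B η : ℝ), 0 < η → (∀ τ, 0 < τ → τ ≤ η → 0 ≤ A + τ * B) → 0 ≤ A := by
    intro A B η hη h
    by_contra hA
    push Not at hA
    have hB : 0 < |B| + 1 := by positivity
    have h1 := h (min η (-A / (2 * (|B| + 1)))) (lt_min hη (by
      apply div_pos <;> linarith)) (min_le_left _ _)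
    have h2 : min η (-A / (2 * (|B| + 1))) * B ≤ -A / 2 := by
      calc min η (-A / (2 * (|B| + 1))) * B ≤ min η (-A / (2 * (|B| + 1))) * (|B| + 1) := by
            apply mul_le_mul_of_nonneg_left (by linarith [le_abs_self B])
            exact le_min hη.le (by apply div_nonneg <;> linarith)
        _ ≤ (-A / (2 * (|B| + 1))) * (|B| + 1) :=
            mul_le_mul_of_nonneg_right (min_le_right _ _) hB.le
        _ = -A / 2 := by field_simp
    linarith
  refine ⟨y, hy, n, ?_, ?_⟩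
  · have h1 : 0 ≤ 2 * ⟪n, z - x⟫ := by
      refine small _ (‖z - x‖ ^ 2) (s - t₀) (by linarith) fun τ hτ hτ' => ?_
      have h2 := hgt (t₀ + τ) ⟨by linarith, by linarith⟩
      have h3 : δ (t₀ + τ) ≤ ‖n + τ • (z - x)‖ := by
        have : g (t₀ + τ) - y = n + τ • (z - x) := by
          simp only [hnd, hg, add_smul]; abel
        rw [← this, ← dist_eq_norm]
        exact infDist_le_dist_of_mem hy
      have h4 : ‖n‖ ^ 2 ≤ ‖n + τ • (z - x)‖ ^ 2 := by
        apply pow_le_pow_left₀ (norm_nonneg _); linarith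
      rw [norm_add_sq_real, inner_smul_right, norm_smul, mul_pow, Real.norm_eq_abs, sq_abs] at h4
      have h5 : 0 ≤ τ * (2 * ⟪n, z - x⟫ + τ * ‖z - x‖ ^ 2) := by nlinarith
      exact nonneg_of_mul_nonneg_right h5 hτ |> fun h => h
    have h2 : z - y = n + (1 - t₀) • (z - x) := by
      simp only [hnd, hg, sub_smul, one_smul]; abel
    have h3 : ⟪n, z - y⟫ = ‖n‖ ^ 2 + (1 - t₀) * ⟪n, z - x⟫ := by
      rw [h2, inner_add_right, inner_smul_right, real_inner_self_eq_norm_sq]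
    have h4 : 0 < ‖n‖ ^ 2 := by
      have : 0 < ‖n‖ := by linarith
      positivity
    have h5 : 0 ≤ (1 - t₀) * ⟪n, z - x⟫ := mul_nonneg (by linarith [hs.2]) (by linarith)
    rw [inner_sub_right] at h3
    linarith
  · intro v hv
    have h1 : 0 ≤ -2 * ⟪n, v - y⟫ := by
      refine small _ (‖v - y‖ ^ 2) 1 one_pos fun τ hτ hτ' => ?_
      have hmem : y + τ • (v - y) ∈ E := by
        apply hv
        rw [segment_eq_image']
        exact ⟨τ, ⟨hτ.le, hτ'⟩, rfl⟩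
      have h3 : δ t₀ ≤ ‖n - τ • (v - y)‖ := by
        have : g t₀ - (y + τ • (v - y)) = n - τ • (v - y) := by
          simp only [hnd]; abel
        rw [← this, ← dist_eq_norm]
        exact infDist_le_dist_of_mem hmem
      have h4 : ‖n‖ ^ 2 ≤ ‖n - τ • (v - y)‖ ^ 2 := by
        apply pow_le_pow_left₀ (norm_nonneg _); linarith
      rw [norm_sub_sq_real n, inner_smul_right, norm_smul, mul_pow, Real.norm_eq_abs, sq_abs] at h4
      have h5 : 0 ≤ τ * (-2 * ⟪n, v - y⟫ + τ * ‖v - y‖ ^ 2) := by nlinarith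
      exact nonneg_of_mul_nonneg_right h5 hτ |> fun h => h
    rw [inner_sub_right] at h1
    linarith

end Inner

end Pool.Agent.H972Z.Star
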