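import Pool.Agent.H972Z.StarDefs
import Pool.Agent.H972Z.StarSweep

set_option autoImplicit false

namespace Pool.Agent.H972Z.Star

open Set Metric Topology RealInnerProductSpace

theorem kernel {d : ℕ} {E : Set (EuclideanSpace ℝ (Fin d))} (hK : IsCompact E)
    (hE : IsPreconnected E) {z : EuclideanSpace ℝ (Fin d)}
    (hz : ∀ q, IsLNC E q → z ∈ closure (convexHull ℝ {y | y ∈ E ∧ ClearlyVisible E q y}))
    (hz' : (∃ q, IsLNC E q) ∨ z ∈ E) : ∀ x ∈ E, segment ℝ x z ⊆ E := by
  intro x hx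
  by_contra hn
  obtain ⟨y, hy, n, hlt, hle⟩ := touch hK hx hn
  set f : EuclideanSpace ℝ (Fin d) →L[ℝ] ℝ := innerSL ℝ n with hf
  have hfa : ∀ v, f v = ⟪n, v⟫ := fun v => rfl
  have hq : ∀ q, IsLNC E q → ∃ p, (p ∈ E ∧ ClearlyVisible E q p) ∧ f y < f p := by
    intro q hq
    by_contra hno
    push Not at hno
    have hcv : Convex ℝ {w | f w ≤ f y} := convex_halfSpace_le f.toLinearMap.isLinear _
    have hcl : IsClosed {w | f w ≤ f y} := isClosed_le f.continuous continuous_const
    have h1 : closure (convexHull ℝ {y | y ∈ E ∧ ClearlyVisible E q y}) ⊆ {w | f w ≤ f y} :=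
      hcl.closure_subset_iff.2 (convexHull_min (fun p hp => hno p hp) hcv)
    have h2 : f z ≤ f y := h1 (hz q hq)
    rw [hfa, hfa] at h2
    linarith
  have hL : Loc E f (f y) := by
    intro w hw
    by_cases hw' : IsLNC E w
    · obtain ⟨p, ⟨-, r, hr, hp⟩, hp'⟩ := hq w hw'
      exact ⟨r, hr, Or.inr ⟨p, hp', hp⟩⟩
    · by_cases hfr : w ∈ frontier E
      · have : ¬ ∀ r : ℝ, 0 < r → ¬ Convex ℝ (Metric.ball w r ∩ E) := fun h => hw' ⟨hfr, h⟩
        push Not at this
        obtain ⟨r, hr, h⟩ := this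
        exact ⟨r, hr, Or.inl h⟩
      · have hint : w ∈ interior E := by
          by_contra hi
          exact hfr ⟨subset_closure hw, hi⟩
        obtain ⟨r, hr, h⟩ := Metric.isOpen_iff.1 isOpen_interior w hint
        refine ⟨r, hr, Or.inl ?_⟩
        rw [inter_eq_left.2 (h.trans interior_subset)]
        exact convex_ball w r
  have hne : (Pos E f (f y)).Nonempty := by
    rcases hz' with ⟨q, h⟩ | h
    · obtain ⟨p, ⟨hp, -⟩, hp'⟩ := hq q h
      exact ⟨p, hp, hp'⟩
    · exact ⟨z, h, hlt⟩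
  obtain ⟨v, hv, hseg⟩ := sweep hK hE hL hne hy rfl
  have := hle v hseg
  rw [hfa, hfa] at hv
  linarith

theorem main (d : ℕ) (E : Set (EuclideanSpace ℝ (Fin d))) (hK : IsCompact E)
    (hE : IsConnected E) (hC : PropC (d + 1) E) : Starshaped E := by
  classical
  by_cases hQ : ∃ q, IsLNC E q
  · have hH := Convex.helly_theorem_compact' (𝕜 := ℝ)
      (F := fun q : {q // IsLNC E q} =>
        closure (convexHull ℝ {y | y ∈ E ∧ ClearlyVisible E q.1 y}))
      (fun q => (convex_convexHull ℝ _).closure)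
      (fun q => Bornology.IsBounded.isCompact_closure
        (isBounded_convexHull.2 (hK.isBounded.subset fun y hy => hy.1)))
      (by
        intro I hI
        rw [finrank_euclideanSpace_fin] at hI
        obtain ⟨q₀, hq₀⟩ := hQ
        have hcard : Fintype.card I ≤ Fintype.card (Fin (d + 1)) := by simpa using hI
        obtain ⟨e⟩ := Function.Embedding.nonempty_of_card_le hcard
        let g : Fin (d + 1) → {q // IsLNC E q} :=
          Function.extend e (fun i : I => i.1) (fun _ => ⟨q₀, hq₀⟩)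
        obtain ⟨y, hy, hv⟩ := hC (fun i => (g i).1) (fun i => (g i).2)
        refine ⟨y, mem_iInter₂.2 fun q hq => subset_closure (subset_convexHull ℝ _ ⟨hy, ?_⟩)⟩
        have := hv (e ⟨q, hq⟩)
        simp only [g, e.injective.extend_apply] at this
        exact this)
    obtain ⟨z, hz⟩ := hH
    have hk := kernel hK hE.isPreconnected (z := z) (fun q hq => mem_iInter.1 hz ⟨q, hq⟩)
      (Or.inl hQ)
    obtain ⟨x, hx⟩ := hE.nonempty
    exact ⟨z, hk x hx (right_mem_segment ℝ x z), hk⟩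
  · obtain ⟨z, hz⟩ := hE.nonempty
    exact ⟨z, hz, kernel hK hE.isPreconnected (fun q hq => absurd ⟨q, hq⟩ hQ) (Or.inr hz)⟩

end Pool.Agent.H972Z.Star
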