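import Pool.Agent.H972Z.SumRed

set_option autoImplicit false

namespace Pool.Agent.H972Z.SumNP

open Pool.Agent.H646Z.SumG Pool.Agent.NPC Pool.Agent.NPC.R671 Pool.Agent.H692R2

/-- instances of 3-colourability with small names -/
def PrB (E : List (ℕ × ℕ)) : Prop :=
  ∀ e ∈ E, e.1 ≠ e.2 ∧ e.1 < 2 * E.length ∧ e.2 < 2 * E.length

theorem length_satCol (φ : List (Lit ℕ × Lit ℕ × Lit ℕ)) :
    (satCol φ).length = 3 + 19 * φ.length := by
  have h : ∀ l : List ((Lit ℕ × Lit ℕ × Lit ℕ) × ℕ), (l.flatMap (fun p =>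
      varE p.1.1.2 ++ (varE p.1.2.1.2 ++ (varE p.1.2.2.2 ++ clauseE p.1 p.2)))).length =
        19 * l.length := by
    intro l
    induction l with
    | nil => rfl
    | cons a l ih =>
      rw [List.flatMap_cons, List.length_append, ih]
      simp [varE, clauseE]
      omega
  unfold satCol
  rw [List.length_append, h, List.length_zipIdx]
  rfl

theorem hardPr_colB : HardPr PrB (Col 3) := by
  refine hardPr_SAT3b.trans satCol_poly ?_ (fun φ _ => satCol_correct φ)
  rintro φ ⟨_, hb, hne⟩ e he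
  refine ⟨satCol_loopless φ e he, ?_⟩
  rw [length_satCol]
  have hlen : 0 < φ.length := List.length_pos_iff.2 hne
  unfold satCol at he
  rw [List.mem_append] at he
  rcases he with he | he
  · simp only [List.mem_cons, List.not_mem_nil, or_false] at he
    rcases he with rfl | rfl | rfl <;> simp only <;> omega
  · rw [List.mem_flatMap] at he
    obtain ⟨⟨d, k⟩, hd, he⟩ := he
    have hk : k < φ.length := by
      have := List.mem_zipIdx hd
      omega
    have hd' : d ∈ φ := by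
      have := List.mem_zipIdx hd
      rw [this.2.2]
      exact List.getElem_mem _
    obtain ⟨b1, b2, b3⟩ := hb d hd'
    have l1 : ∀ l : Lit ℕ, litv l ≤ 8 * l.2 + 2 := by
      intro l
      unfold litv
      split_ifs <;> omega
    have c1 := l1 d.1
    have c2 := l1 d.2.1
    have c3 := l1 d.2.2
    simp only [List.mem_append, varE, clauseE, List.mem_cons, List.not_mem_nil, or_false] at he
    rcases he with (rfl | rfl | rfl) | (rfl | rfl | rfl) | (rfl | rfl | rfl) |
      (rfl | rfl | rfl | rfl | rfl | rfl | rfl | rfl | rfl | rfl) <;> simp only <;> omega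

/-- a Sidon sequence -/
def sS (n i : ℕ) : ℕ := 2 * n * n * i + i * i

/-- bound on the number of irregularities -/
def pK (n : ℕ) : ℕ := n * n + n + 4

/-- spacing -/
def pW (n : ℕ) : ℕ := 20 * pK n + 20

/-- bound on the Sidon sequence -/
def pB (n : ℕ) : ℕ := 2 * n * n * n + n * n + 1

/-- scale -/
def pD (n : ℕ) : ℕ := pW n * pB n

/-- attachment points -/
def pd (n i : ℕ) : ℕ := pW n * (pB n + sS n i)

/-- length of the interval -/
def pm (n : ℕ) : ℕ := (2 * ((pK n + 2) * (pK n + 2 + pK n)) + 1) *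
  (pK n + 2 + pK n + 1 + 2 * (5 * pD n + pK n)) + pK n + 1 + 10 * pD n + 1

/-- number of vertices of the instance -/
def nn (E : List (ℕ × ℕ)) : ℕ := 2 * E.length

/-- the holes -/
def Hl (E : List (ℕ × ℕ)) : List ℕ :=
  ((List.range (nn E) ×ˢ List.range (nn E)).filter
    (fun p => decide (p.2 < p.1 ∧ ¬ p ∈ E ∧ ¬ (p.2, p.1) ∈ E))).map
    (fun p => pW (nn E) * (sS (nn E) p.1 - sS (nn E) p.2))

/-- the lattice vertices -/
def Vl (E : List (ℕ × ℕ)) : List ℕ :=
  (List.range (pm (nn E))).filter (fun a => decide (1 ≤ a ∧ ¬ a ∈ Hl E))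

/-- the vertices -/
def vsE (E : List (ℕ × ℕ)) : List ℕ := Vl E ++ (List.range (nn E)).map (fun i => pm (nn E) + i)

/-- the edges -/
def esE (E : List (ℕ × ℕ)) : List (ℕ × ℕ) :=
  (Vl E ×ˢ Vl E).filter
    (fun p => decide (¬ p.1 = p.2 ∧ p.1 + p.2 ≤ pm (nn E) ∧ ¬ p.1 + p.2 ∈ Hl E)) ++
  (List.range (nn E)).map (fun i => (pm (nn E) + i, pd (nn E) i))

/-- the reduction -/
def red (E : List (ℕ × ℕ)) : List ℕ × List (ℕ × ℕ) × ℕ := (vsE E, esE E, 4)

theorem sS_lt {n i j : ℕ} (h : j < i) : sS n j < sS n i := by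
  unfold sS
  have h1 : 2 * n * n * j ≤ 2 * n * n * i := Nat.mul_le_mul_left _ h.le
  have h2 : j * j < i * i := Nat.mul_self_lt_mul_self h
  omega

theorem sS_bd {n i : ℕ} (h : i < n) : sS n i < pB n := by
  have := sS_lt (n := n) h
  unfold pB
  unfold sS at this ⊢
  omega

theorem sidon {n i j k l : ℕ} (hi : i < n) (hk : k < n) (hj : j < i) (hl : l < k)
    (h : sS n i - sS n j = sS n k - sS n l) : i = k ∧ j = l := by
  have h1 := sS_lt (n := n) hj
  have h2 := sS_lt (n := n) hl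
  have h3 : sS n i + sS n l = sS n k + sS n j := by omega
  unfold sS at h3
  have a1 : i * i < n * n := Nat.mul_self_lt_mul_self hi
  have a2 : j * j < n * n := Nat.mul_self_lt_mul_self (hj.trans hi)
  have a3 : k * k < n * n := Nat.mul_self_lt_mul_self hk
  have a4 : l * l < n * n := Nat.mul_self_lt_mul_self (hl.trans hk)
  have e1 : i + l = k + j := by
    rcases lt_trichotomy (i + l) (k + j) with c | c | c
    · have : 2 * n * n * (i + l + 1) ≤ 2 * n * n * (k + j) := Nat.mul_le_mul_left _ c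
      nlinarith
    · exact c
    · have : 2 * n * n * (k + j + 1) ≤ 2 * n * n * (i + l) := Nat.mul_le_mul_left _ c
      nlinarith
  have e2 : i * i + l * l = k * k + j * j := by
    have : 2 * n * n * (i + l) = 2 * n * n * (k + j) := by rw [e1]
    nlinarith
  obtain ⟨t, rfl⟩ := Nat.exists_eq_add_of_lt hj
  have : k = l + t + 1 := by omega
  subst this
  have : j = l := by
    have : (t + 1) * j = (t + 1) * l := by
      have f1 : (j + t + 1) * (j + t + 1) = j * j + 2 * ((t + 1) * j) + (t + 1) * (t + 1) := by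
        ring
      have f2 : (l + t + 1) * (l + t + 1) = l * l + 2 * ((t + 1) * l) + (t + 1) * (t + 1) := by
        ring
      omega
    exact Nat.eq_of_mul_eq_mul_left (by omega) this
  omega

theorem pW_pos (n : ℕ) : 0 < pW n := by unfold pW; omega

theorem mem_Hl {E : List (ℕ × ℕ)} {h : ℕ} : h ∈ (Hl E).toFinset ↔
    ∃ i j, i < nn E ∧ j < i ∧ (i, j) ∉ E ∧ (j, i) ∉ E ∧
      h = pW (nn E) * (sS (nn E) i - sS (nn E) j) := by
  rw [List.mem_toFinset]
  unfold Hl
  simp only [List.mem_map, List.mem_filter, decide_eq_true_eq, Prod.exists, List.mem_product,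
    List.mem_range]
  constructor
  · rintro ⟨i, j, ⟨⟨h1, -⟩, h2, h3, h4⟩, rfl⟩
    exact ⟨i, j, h1, h2, h3, h4, rfl⟩
  · rintro ⟨i, j, h1, h2, h3, h4, rfl⟩
    exact ⟨i, j, ⟨⟨h1, h2.trans h1⟩, h2, h3, h4⟩, rfl⟩

theorem pd_lt {n i j : ℕ} : pd n i < pd n j ↔ i < j := by
  unfold pd
  constructor
  · intro h
    have := Nat.lt_of_mul_lt_mul_left h
    by_contra c
    rcases (not_lt.1 c).eq_or_lt with c | c
    · subst c; omega
    · have := sS_lt (n := n) c; omega
  · intro h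
    have := sS_lt (n := n) h
    exact Nat.mul_lt_mul_of_pos_left (by omega) (pW_pos n)

theorem par (E : List (ℕ × ℕ)) : Par (pm (nn E)) (nn E) (pK (nn E)) (pW (nn E)) (pD (nn E))
    (Hl E).toFinset (pd (nn E)) := by
  have hW := pW_pos (nn E)
  refine ⟨?_, le_rfl, ?_, ?_, ?_, ?_, ?_, ?_, ?_, ?_, ?_, ?_⟩
  · have h1 : (Hl E).toFinset.card ≤ (Hl E).length := List.toFinset_card_le _
    have h2 : (Hl E).length ≤ nn E * nn E := by
      unfold Hl
      rw [List.length_map]
      refine (List.length_filter_le _ _).trans ?_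
      simp [List.length_product]
    unfold pK
    omega
  · exact Nat.le_mul_of_pos_right _ (by unfold pB; omega)
  · intro h hh
    obtain ⟨i, j, -, -, -, -, rfl⟩ := mem_Hl.1 hh
    exact dvd_mul_right _ _
  · intro h hh
    obtain ⟨i, j, -, h2, -, -, rfl⟩ := mem_Hl.1 hh
    have := sS_lt (n := nn E) h2
    exact Nat.le_mul_of_pos_right _ (by omega)
  · intro h hh
    obtain ⟨i, j, h1, h2, -, -, rfl⟩ := mem_Hl.1 hh
    have := sS_bd h1
    rw [← Nat.mul_succ]
    exact Nat.mul_le_mul_left _ (by omega)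
  · intro i _
    exact dvd_mul_right _ _
  · intro i _
    exact Nat.mul_le_mul_left _ (by omega)
  · intro i hi
    have := sS_bd hi
    unfold pd pD
    rw [show 2 * (pW (nn E) * pB (nn E)) = pW (nn E) * (2 * pB (nn E)) by ring]
    exact Nat.mul_lt_mul_of_pos_left (by omega) hW
  · intro i _ j _ h
    rcases lt_trichotomy i j with c | c | c
    · have := (pd_lt (n := nn E)).2 c; omega
    · exact c
    · have := (pd_lt (n := nn E)).2 c; omega
  · unfold pm; omega
  · unfold pm; omega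

theorem mem_Vl {E : List (ℕ × ℕ)} {a : ℕ} : a ∈ Vl E ↔ Vt (pm (nn E)) (Hl E).toFinset a := by
  unfold Vl Vt
  simp only [List.mem_filter, List.mem_range, decide_eq_true_eq, List.mem_toFinset]
  tauto

theorem mem_vsE (E : List (ℕ × ℕ)) (v : ℕ) : v ∈ vsE E ↔
    Vt (pm (nn E)) (Hl E).toFinset v ∨ (pm (nn E) ≤ v ∧ v < pm (nn E) + nn E) := by
  unfold vsE
  rw [List.mem_append, mem_Vl]
  refine or_congr Iff.rfl ?_
  simp only [List.mem_map, List.mem_range]
  constructor
  · rintro ⟨i, hi, rfl⟩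
    omega
  · intro h
    exact ⟨v - pm (nn E), by omega, by omega⟩

theorem mem_esE (E : List (ℕ × ℕ)) (a b : ℕ) : (a, b) ∈ esE E ↔
    (Vt (pm (nn E)) (Hl E).toFinset a ∧ Vt (pm (nn E)) (Hl E).toFinset b ∧ a ≠ b ∧
      a + b ≤ pm (nn E) ∧ a + b ∉ (Hl E).toFinset) ∨
      ∃ i < nn E, a = pm (nn E) + i ∧ b = pd (nn E) i := by
  unfold esE
  rw [List.mem_append]
  refine or_congr ?_ ?_
  · simp only [List.mem_filter, List.mem_product, mem_Vl, decide_eq_true_eq,
      List.mem_toFinset]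
    tauto
  · simp only [List.mem_map, List.mem_range, Prod.mk.injEq]
    constructor
    · rintro ⟨i, hi, rfl, rfl⟩
      exact ⟨i, hi, rfl, rfl⟩
    · rintro ⟨i, hi, rfl, rfl⟩
      exact ⟨i, hi, rfl, rfl⟩

theorem valid (E : List (ℕ × ℕ)) : ValidGraph (vsE E) (esE E) := by
  refine ⟨?_, ?_⟩
  · unfold vsE
    refine List.Nodup.append (List.nodup_range.filter _)
      (List.nodup_range.map (fun a b h => by simpa using h)) ?_
    intro v h1 h2
    have := (mem_Vl.1 h1).2.1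
    simp only [List.mem_map] at h2
    obtain ⟨i, -, rfl⟩ := h2
    omega
  · rintro ⟨a, b⟩ h
    simp only [mem_vsE]
    rcases (mem_esE E a b).1 h with h | ⟨i, hi, rfl, rfl⟩
    · exact ⟨Or.inl h.1, Or.inl h.2.1, h.2.2.1⟩
    · have := ((par E).vd hi).2.1
      exact ⟨Or.inr ⟨by omega, by omega⟩, Or.inl ((par E).vd hi), by omega⟩

theorem pd_sub {n i j : ℕ} : pd n j - pd n i = pW n * (sS n j - sS n i) := by
  unfold pd
  rw [← Nat.mul_sub, Nat.add_sub_add_left]

theorem correct (E : List (ℕ × ℕ)) (hE : PrB E) : Col 3 E ↔ SumNumber (red E) := by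
  classical
  constructor
  · rintro ⟨c, hc⟩
    have h4 : IsSumGraph (addIsolated (listGr (vsE E) (esE E)) 4) := by
      refine complete (par E) (mem_vsE E) (mem_esE E) c ?_
      intro i _ j hj hlt hcc
      rw [pd_sub, mem_Hl]
      exact ⟨j, i, hj, pd_lt.1 hlt, fun h => hc _ h hcc.symm, fun h => hc _ h hcc, rfl⟩
    have hex : ∃ k, IsSumGraph (addIsolated (listGr (vsE E) (esE E)) k) := ⟨4, h4⟩
    exact ⟨valid E, Nat.find hex, ⟨Nat.find_spec hex, fun k hk => Nat.find_min' hex hk⟩,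
      Nat.find_min' hex h4⟩
  · rintro ⟨-, r, hr, h4⟩
    obtain ⟨c, hc⟩ := sound (par E) (mem_vsE E) (mem_esE E) h4 hr.1
    have key : ∀ i j, i < j → j < nn E → c i = c j → (j, i) ∉ E ∧ (i, j) ∉ E := by
      intro i j hij hj hcc
      have := hc i (hij.trans hj) j hj (pd_lt.2 hij) hcc
      rw [pd_sub, mem_Hl] at this
      obtain ⟨k, l, hk, hl, h1, h2, h3⟩ := this
      obtain ⟨rfl, rfl⟩ := sidon hj hk hij hl (Nat.eq_of_mul_eq_mul_left (pW_pos _) h3)
      exact ⟨h1, h2⟩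
    refine ⟨c, ?_⟩
    rintro ⟨a, b⟩ he hcc
    obtain ⟨h0, h1, h2⟩ := hE _ he
    rcases lt_or_gt_of_ne h0 with h | h
    · exact (key a b h h2 hcc).2 he
    · exact (key b a h h1 hcc.symm).1 he

section PolyTime

variable {α : Type} [TEnc α]

theorem nn_u {E : α → List (ℕ × ℕ)} (h : Poly E) : UPoly (fun x => nn (E x)) :=
  UPoly.mul (UPoly.const 2) (UPoly.length h)

theorem pK_u {n : α → ℕ} (h : UPoly n) : UPoly (fun x => pK (n x)) :=
  UPoly.add (UPoly.add (UPoly.mul h h) h) (UPoly.const 4)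

theorem pW_u {n : α → ℕ} (h : UPoly n) : UPoly (fun x => pW (n x)) :=
  UPoly.add (UPoly.mul (UPoly.const 20) (pK_u h)) (UPoly.const 20)

theorem pB_u {n : α → ℕ} (h : UPoly n) : UPoly (fun x => pB (n x)) :=
  UPoly.add (UPoly.add (UPoly.mul (UPoly.mul (UPoly.mul (UPoly.const 2) h) h) h) (UPoly.mul h h))
    (UPoly.const 1)

theorem pD_u {n : α → ℕ} (h : UPoly n) : UPoly (fun x => pD (n x)) :=
  UPoly.mul (pW_u h) (pB_u h)

theorem pm_u {n : α → ℕ} (h : UPoly n) : UPoly (fun x => pm (n x)) := by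
  have k := pK_u h
  have k2 := UPoly.add k (UPoly.const 2)
  have k3 := UPoly.add k2 k
  have d := pD_u h
  exact UPoly.add (UPoly.add (UPoly.add (UPoly.add (UPoly.mul
    (UPoly.add (UPoly.mul (UPoly.const 2) (UPoly.mul k2 k3)) (UPoly.const 1))
    (UPoly.add (UPoly.add k3 (UPoly.const 1))
      (UPoly.mul (UPoly.const 2) (UPoly.add (UPoly.mul (UPoly.const 5) d) k)))) k)
    (UPoly.const 1)) (UPoly.mul (UPoly.const 10) d)) (UPoly.const 1)

theorem nn_p {E : α → List (ℕ × ℕ)} (h : Poly E) : Poly (fun x => nn (E x)) := (nn_u h).toPoly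

theorem pWn_p {E : α → List (ℕ × ℕ)} (h : Poly E) : Poly (fun x => pW (nn (E x))) :=
  (pW_u (nn_u h)).toPoly

theorem pBn_p {E : α → List (ℕ × ℕ)} (h : Poly E) : Poly (fun x => pB (nn (E x))) :=
  (pB_u (nn_u h)).toPoly

theorem pmn_p {E : α → List (ℕ × ℕ)} (h : Poly E) : Poly (fun x => pm (nn (E x))) :=
  (pm_u (nn_u h)).toPoly

theorem sS_p {n i : α → ℕ} (hn : Poly n) (hi : Poly i) : Poly (fun x => sS (n x) (i x)) := by
  unfold sS
  fun_prop

theorem Hl_p : Poly Hl := by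
  unfold Hl
  have r : Poly (fun E : List (ℕ × ℕ) => List.range (nn E)) := (nn_u NPC.Poly.id).range
  refine NPC.Poly.map (F := fun (E : List (ℕ × ℕ)) (p : ℕ × ℕ) =>
    pW (nn E) * (sS (nn E) p.1 - sS (nn E) p.2))
    (NPC.Poly.filter (p := fun (E : List (ℕ × ℕ)) (p : ℕ × ℕ) =>
      decide (p.2 < p.1 ∧ ¬ p ∈ E ∧ ¬ (p.2, p.1) ∈ E)) (poly_product r r) (by fun_prop)) ?_
  have f1 : Poly (fun x : List (ℕ × ℕ) × ℕ × ℕ => x.1) := by fun_prop
  exact NPC.Poly.mul (pWn_p f1)
    (NPC.Poly.sub (sS_p (nn_p f1) (by fun_prop)) (sS_p (nn_p f1) (by fun_prop)))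

theorem Vl_p : Poly Vl := by
  unfold Vl
  refine NPC.Poly.filter (p := fun (E : List (ℕ × ℕ)) (a : ℕ) => decide (1 ≤ a ∧ ¬ a ∈ Hl E))
    (pm_u (nn_u NPC.Poly.id)).range ?_
  have := Hl_p
  fun_prop

theorem red_p : Poly red := by
  have r : Poly (fun E : List (ℕ × ℕ) => List.range (nn E)) := (nn_u NPC.Poly.id).range
  have f1 : Poly (fun x : List (ℕ × ℕ) × ℕ => x.1) := by fun_prop
  have f2 : Poly (fun x : List (ℕ × ℕ) × ℕ => x.2) := by fun_prop
  have h1 : Poly vsE := by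
    unfold vsE
    exact NPC.Poly.append Vl_p (NPC.Poly.map
      (F := fun (E : List (ℕ × ℕ)) (i : ℕ) => pm (nn E) + i) r (NPC.Poly.add (pmn_p f1) f2))
  have h2 : Poly esE := by
    unfold esE
    refine NPC.Poly.append (NPC.Poly.filter (p := fun (E : List (ℕ × ℕ)) (p : ℕ × ℕ) =>
      decide (¬ p.1 = p.2 ∧ p.1 + p.2 ≤ pm (nn E) ∧ ¬ p.1 + p.2 ∈ Hl E))
      (poly_product Vl_p Vl_p) ?_) (NPC.Poly.map
      (F := fun (E : List (ℕ × ℕ)) (i : ℕ) => (pm (nn E) + i, pd (nn E) i)) r ?_)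
    · have g1 : Poly (fun x : List (ℕ × ℕ) × ℕ × ℕ => x.1) := by fun_prop
      have g2 := pmn_p g1
      have g3 := Hl_p.comp g1
      exact NPC.Poly.decide_and (NPC.Poly.decide_not (NPC.Poly.dec_eq (by fun_prop) (by fun_prop)))
        (NPC.Poly.decide_and (NPC.Poly.decide_le (by fun_prop) g2)
          (NPC.Poly.decide_not (NPC.Poly.dec_mem (by fun_prop) g3)))
    · exact NPC.Poly.pair (NPC.Poly.add (pmn_p f1) f2)
        (NPC.Poly.mul (pWn_p f1) (NPC.Poly.add (pBn_p f1) (sS_p (nn_p f1) f2)))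
  exact NPC.Poly.pair h1 (NPC.Poly.pair h2 (NPC.Poly.const 4))

end PolyTime

theorem npHard : NPHardP SumNumber :=
  (hardPr_colB.trans (Pr' := fun _ => True) red_p (fun _ _ => trivial) correct).toHardI.toNPHardP

end Pool.Agent.H972Z.SumNP
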