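import Pool.Agent.NPC.Defs
import Pool.Agent.H646Z.SumDefs

set_option autoImplicit false

namespace Pool.Agent.H972Z.SumNP

open Pool.Agent.H646Z.SumG

/-- The simple graph on the entries of the vertex list `vs` in which two distinct vertices are
adjacent when they form a pair (in either order) of the edge list `es`. -/
def listGr (vs : List ℕ) (es : List (ℕ × ℕ)) : SimpleGraph {v : ℕ // v ∈ vs} :=
  SimpleGraph.fromRel fun u v => (u.1, v.1) ∈ es

/-- The two lists describe a simple graph: no repeated vertex, and every edge joins two distinct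
listed vertices. -/
def ValidGraph (vs : List ℕ) (es : List (ℕ × ℕ)) : Prop :=
  vs.Nodup ∧ ∀ e ∈ es, e.1 ∈ vs ∧ e.2 ∈ vs ∧ e.1 ≠ e.2

/-- The decision problem SUM NUMBER: the input (vertex list, edge list, `k`) describes a graph
whose sum number is at most `k`. -/
def SumNumber (p : List ℕ × List (ℕ × ℕ) × ℕ) : Prop :=
  ValidGraph p.1 p.2.1 ∧ ∃ r, HasSumNumber (listGr p.1 p.2.1) r ∧ r ≤ p.2.2

end Pool.Agent.H972Z.SumNP
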