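import Pool.Agent.H972Z.SumRig
import Pool.Agent.H972Z.SumNPDefs
import Pool.Agent.H692R2.Col
import Pool.Agent.NPC.Sat2
import Pool.Agent.H671R2.PolyAuto

set_option autoImplicit false

namespace Pool.Agent.H972Z.SumNP

open Pool.Agent.H646Z.SumG Pool.Agent.NPC Pool.Agent.NPC.R671 Pool.Agent.H692R2

section Abstract

variable {m n K W D : ℕ} {H : Finset ℕ} {d : ℕ → ℕ} {vs : List ℕ} {es : List (ℕ × ℕ)}

theorem sound (P : Par m n K W D H d) (hv : ∀ v, v ∈ vs ↔ Vt m H v ∨ (m ≤ v ∧ v < m + n))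
    (he : ∀ a b, (a, b) ∈ es ↔ (Vt m H a ∧ Vt m H b ∧ a ≠ b ∧ a + b ≤ m ∧ a + b ∉ H) ∨
      ∃ i < n, a = m + i ∧ b = d i) {r : ℕ} (hr : r ≤ 4)
    (h : IsSumGraph (addIsolated (listGr vs es) r)) :
    ∃ c : ℕ → Fin 3, ∀ i < n, ∀ j < n, d i < d j → c i = c j → d j - d i ∈ H := by
  classical
  obtain ⟨l, linj, lpos, hl⟩ := h
  let F : ℕ → ℚ := fun v => if h : v ∈ vs then (l (Sum.inl ⟨v, h⟩) : ℚ) else 0
  have hF : ∀ v (h : v ∈ vs), F v = l (Sum.inl ⟨v, h⟩) := fun v h => dif_pos h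
  have m1 : ∀ a, Vt m H a → a ∈ vs := fun a ha => (hv a).2 (Or.inl ha)
  have m2 : ∀ i < n, m + i ∈ vs := fun i hi => (hv _).2 (Or.inr ⟨by omega, by omega⟩)
  have key : ∀ x y, x ≠ y → ((addIsolated (listGr vs es) r).Adj x y ↔
      ((l x : ℚ) + l y) ∈ Set.range fun z => (l z : ℚ)) := by
    intro x y hxy
    rw [hl x y hxy]
    constructor
    · rintro ⟨w, hw⟩
      exact ⟨w, by simp only; rw [← hw]; push_cast; rfl⟩
    · rintro ⟨w, hw⟩
      exact ⟨w, by simp only at hw; exact_mod_cast hw.symm⟩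
  have adj : ∀ a b (ha : a ∈ vs) (hb : b ∈ vs), a ≠ b →
      (F a + F b ∈ (Set.range fun z => (l z : ℚ)) ↔ (a, b) ∈ es ∨ (b, a) ∈ es) := by
    intro a b ha hb hab
    rw [hF a ha, hF b hb, ← key _ _ (by simpa using hab)]
    simp [addIsolated, listGr, hab]
  refine colour (T := Set.range fun z => (l z : ℚ)) (f := F) (g := fun i => F (m + i))
    (X := Finset.univ.image fun k : Fin r => (l (Sum.inr k) : ℚ)) ?_ P
  refine ⟨?_, ?_, ?_, ?_, ?_, ?_, ?_, ?_, ?_, ?_⟩
  · rintro _ ⟨z, rfl⟩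
    show (0 : ℚ) < (l z : ℚ)
    exact_mod_cast lpos z
  · intro a ha
    exact ⟨_, (hF a (m1 a ha)).symm⟩
  · intro i hi
    exact ⟨_, (hF _ (m2 i hi)).symm⟩
  · intro a b ha hb e
    rw [hF a (m1 a ha), hF b (m1 b hb)] at e
    have := linj (by exact_mod_cast e)
    simpa using this
  · rintro _ ⟨z | k, rfl⟩
    · rcases (hv z.1).1 z.2 with h | h
      · exact Or.inl ⟨z.1, h, hF _ z.2⟩
      · refine Or.inr (Or.inl ⟨z.1 - m, by omega, ?_⟩)
        simp only
        rw [show m + (z.1 - m) = z.1 by omega]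
        exact hF _ z.2
    · exact Or.inr (Or.inr (Finset.mem_image.2 ⟨k, Finset.mem_univ _, rfl⟩))
  · intro a b ha hb hab
    rw [adj a b (m1 a ha) (m1 b hb) hab, he, he]
    have := ha.2.1
    have := hb.2.1
    constructor
    · rintro ((h | ⟨i, -, h, -⟩) | (h | ⟨i, -, h, -⟩))
      · exact h.2.2.2
      · omega
      · rw [add_comm]; exact h.2.2.2
      · omega
    · intro h
      exact Or.inl (Or.inl ⟨ha, hb, hab, h⟩)
  · intro i hi a ha h
    have := ha.2.1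
    rw [adj _ a (m2 i hi) (m1 a ha) (by omega), he, he] at h
    rcases h with (h | ⟨j, -, h, h'⟩) | (h | ⟨j, -, h, -⟩)
    · have := h.1.2.1; omega
    · rw [h', show i = j by omega]
    · have := h.2.1.2.1; omega
    · omega
  · intro i hi
    have := (P.vd hi).2.1
    rw [adj _ _ (m2 i hi) (m1 _ (P.vd hi)) (by omega), he]
    exact Or.inl (Or.inr ⟨i, hi, rfl, rfl⟩)
  · intro t ht a ha h
    obtain ⟨k, -, rfl⟩ := Finset.mem_image.1 ht
    rw [hF a (m1 a ha), ← key _ _ (by simp)] at h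
    simp [addIsolated] at h
  · exact Finset.card_image_le.trans (by simpa using hr)

theorem complete (P : Par m n K W D H d) (hv : ∀ v, v ∈ vs ↔ Vt m H v ∨ (m ≤ v ∧ v < m + n))
    (he : ∀ a b, (a, b) ∈ es ↔ (Vt m H a ∧ Vt m H b ∧ a ≠ b ∧ a + b ≤ m ∧ a + b ∉ H) ∨
      ∃ i < n, a = m + i ∧ b = d i) (c : ℕ → Fin 3)
    (hc : ∀ i < n, ∀ j < n, d i < d j → c i = c j → d j - d i ∈ H) :
    IsSumGraph (addIsolated (listGr vs es) 4) := by
  have hm1 := P.hm1
  have hW := P.hW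
  have hWD := P.hWD
  let l : {v : ℕ // v ∈ vs} ⊕ Fin 4 → ℕ := Sum.elim
    (fun v => if v.1 < m then 12 * v.1 else 12 * (2 * D - d (v.1 - m)) + 2 * (c (v.1 - m)).1 + 1)
    (fun k => if k.1 = 3 then 12 * m else 24 * D + 2 * k.1 + 1)
  have kind : ∀ x, (∃ a, ∃ h : a ∈ vs, x = Sum.inl ⟨a, h⟩ ∧ Vt m H a ∧ l x = 12 * a) ∨
      (∃ i, ∃ h : m + i ∈ vs, x = Sum.inl ⟨m + i, h⟩ ∧ i < n ∧
        l x = 12 * (2 * D - d i) + 2 * (c i).1 + 1) ∨
      (x = Sum.inr 3 ∧ l x = 12 * m) ∨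
      ∃ k : Fin 4, x = Sum.inr k ∧ k.1 < 3 ∧ l x = 24 * D + 2 * k.1 + 1 := by
    rintro (⟨v, h⟩ | k)
    · rcases (hv v).1 h with h' | h'
      · exact Or.inl ⟨v, h, rfl, h', by simp [l, h'.2.1]⟩
      · obtain ⟨i, rfl⟩ : ∃ i, v = m + i := ⟨v - m, by omega⟩
        exact Or.inr (Or.inl ⟨i, h, rfl, by omega, by simp [l]⟩)
    · by_cases hk : k.1 = 3
      · exact Or.inr (Or.inr (Or.inl ⟨congrArg _ (Fin.ext hk), by simp [l, hk]⟩))
      · exact Or.inr (Or.inr (Or.inr ⟨k, rfl, by omega, by simp [l, hk]⟩))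
  have lat : ∀ s, 1 ≤ s → ((∃ w, 12 * s = l w) ↔ s ≤ m ∧ s ∉ H) := by
    intro s hs
    constructor
    · rintro ⟨w, hw⟩
      rcases kind w with ⟨a, -, -, ha, e⟩ | ⟨i, -, -, hi, e⟩ | ⟨-, e⟩ | ⟨k, -, hk, e⟩
      · have : s = a := by omega
        subst this
        exact ⟨ha.2.1.le, ha.2.2⟩
      · omega
      · have : s = m := by omega
        subst this
        exact ⟨le_rfl, P.big (by omega)⟩
      · omega
    · rintro ⟨h1, h2⟩
      rcases h1.eq_or_lt with h | h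
      · exact ⟨Sum.inr 3, by simp [l, h]⟩
      · exact ⟨Sum.inl ⟨s, (hv s).2 (Or.inl ⟨hs, h, h2⟩)⟩, by simp [l, h]⟩
  have gad : ∀ a i, (Vt m H a ∨ a = m) → i < n →
      ((∃ w, 12 * a + (12 * (2 * D - d i) + 2 * (c i).1 + 1) = l w) ↔ a = d i) := by
    intro a i ha hi
    have d1 := P.hd1 i hi
    have d2 := P.hd2 i hi
    have c1 := (c i).2
    have a1 : 1 ≤ a ∧ a ∉ H := by
      rcases ha with ha | rfl
      · exact ⟨ha.1, ha.2.2⟩
      · exact ⟨by omega, P.big (by omega)⟩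
    constructor
    · rintro ⟨w, hw⟩
      rcases kind w with ⟨b, -, -, -, e⟩ | ⟨j, -, -, hj, e⟩ | ⟨-, e⟩ | ⟨k, -, hk, e⟩
      · omega
      · have e1 := P.hd1 j hj
        have e2 := P.hd2 j hj
        have c2 := (c j).2
        have := hc j hj i hi (by omega) (Fin.ext (by omega))
        rw [show d i - d j = a by omega] at this
        exact absurd this a1.2
      · omega
      · omega
    · rintro rfl
      refine ⟨Sum.inr ⟨(c i).1, by omega⟩, ?_⟩
      have : (c i).1 ≠ 3 := by omega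
      simp only [l, Sum.elim_inr, this, if_false]
      omega
  have top : ∀ a k, 1 ≤ a → k < 3 → ¬ ∃ w, 12 * a + (24 * D + 2 * k + 1) = l w := by
    rintro a k ha hk ⟨w, hw⟩
    rcases kind w with ⟨b, -, -, -, e⟩ | ⟨j, -, -, hj, e⟩ | ⟨-, e⟩ | ⟨k', -, hk', e⟩
    · omega
    · have := (c j).2; omega
    · omega
    · omega
  have ev : ∀ s k k', k < 3 → k' < 3 → ¬ ∃ w, 12 * s + (2 * k + 1) + (2 * k' + 1) = l w := by
    rintro s k k' hk hk' ⟨w, hw⟩
    rcases kind w with ⟨b, -, -, -, e⟩ | ⟨j, -, -, hj, e⟩ | ⟨-, e⟩ | ⟨k', -, hk', e⟩ <;> omega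
  refine ⟨l, ?_, ?_, ?_⟩
  · intro x y h
    rcases kind x with ⟨a, _, rfl, ha, e⟩ | ⟨i, _, rfl, hi, e⟩ | ⟨rfl, e⟩ | ⟨k, rfl, hk, e⟩ <;>
      rcases kind y with ⟨b, _, rfl, hb, e'⟩ | ⟨j, _, rfl, hj, e'⟩ | ⟨rfl, e'⟩ |
        ⟨k', rfl, hk', e'⟩ <;> rw [e] at h <;> (try rw [e'] at h)
    · simp; omega
    · omega
    · have := ha.2.1; omega
    · omega
    · omega
    · have := P.hd2 i hi
      have := P.hd2 j hj
      have := (c i).2
      have := (c j).2
      have := P.dinj i hi j hj (by omega)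
      simp; omega
    · omega
    · have := P.hd1 i hi
      have := (c i).2
      omega
    · have := hb.2.1; omega
    · omega
    · omega
    · omega
    · have := P.hd1 j hj
      have := (c j).2
      omega
    · omega
    · exact congrArg _ (Fin.ext (by omega))
  · intro x
    rcases kind x with ⟨a, _, rfl, ha, e⟩ | ⟨i, _, rfl, hi, e⟩ | ⟨rfl, e⟩ | ⟨k, rfl, hk, e⟩
    · have := ha.1; omega
    all_goals omega
  · intro x y hxy
    rcases kind x with ⟨a, _, rfl, ha, e⟩ | ⟨i, _, rfl, hi, e⟩ | ⟨rfl, e⟩ | ⟨k, rfl, hk, e⟩ <;>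
      rcases kind y with ⟨b, _, rfl, hb, e'⟩ | ⟨j, _, rfl, hj, e'⟩ | ⟨rfl, e'⟩ |
        ⟨k', rfl, hk', e'⟩ <;> rw [e] <;> (try rw [e']) <;>
      simp only [addIsolated, listGr, SimpleGraph.sum_adj, SimpleGraph.fromRel_adj, he,
        SimpleGraph.bot_adj, false_iff, ne_eq, Subtype.mk.injEq]
    · have hab : a ≠ b := by simpa using hxy
      have := ha.2.1
      have := hb.2.1
      rw [← mul_add, lat _ (by have := ha.1; omega)]
      constructor
      · rintro ⟨-, (h | ⟨i, -, h, -⟩) | (h | ⟨i, -, h, -⟩)⟩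
        · exact h.2.2.2
        · omega
        · rw [add_comm]; exact h.2.2.2
        · omega
      · intro h
        exact ⟨hab, Or.inl (Or.inl ⟨ha, hb, hab, h⟩)⟩
    · have := ha.2.1
      rw [gad a j (Or.inl ha) hj]
      constructor
      · rintro ⟨-, (h | ⟨i, -, h, -⟩) | (h | ⟨i, -, h, h'⟩)⟩
        · have := h.2.1.2.1; omega
        · omega
        · have := h.1.2.1; omega
        · rw [h', show j = i by omega]
      · intro h
        exact ⟨by omega, Or.inr (Or.inr ⟨j, hj, rfl, h⟩)⟩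
    · rw [← mul_add, lat _ (by have := ha.1; omega)]
      have := ha.1
      omega
    · exact top a _ ha.1 hk'
    · have := hb.2.1
      rw [add_comm (12 * (2 * D - d i) + 2 * (c i).1 + 1), gad b i (Or.inl hb) hi]
      constructor
      · rintro ⟨-, (h | ⟨j, -, h, h'⟩) | (h | ⟨j, -, h, -⟩)⟩
        · have := h.1.2.1; omega
        · rw [h', show i = j by omega]
        · have := h.2.1.2.1; omega
        · omega
      · intro h
        exact ⟨by omega, Or.inl (Or.inr ⟨i, hi, rfl, h⟩)⟩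
    · have := ev ((2 * D - d i) + (2 * D - d j)) _ _ (c i).2 (c j).2
      constructor
      · rintro ⟨-, (h | ⟨k, hk, -, h⟩) | (h | ⟨k, hk, -, h⟩)⟩
        · have := h.1.2.1; omega
        · have := P.hd2 k hk; omega
        · have := h.1.2.1; omega
        · have := P.hd2 k hk; omega
      · rintro ⟨w, hw⟩
        exact absurd ⟨w, by omega⟩ this
    · rw [add_comm (12 * (2 * D - d i) + 2 * (c i).1 + 1), gad m i (Or.inr rfl) hi]
      have := P.hd2 i hi
      omega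
    · have := ev ((2 * D - d i) + 2 * D) _ _ (c i).2 hk'
      rintro ⟨w, hw⟩
      exact this ⟨w, by omega⟩
    · rw [← mul_add, lat _ (by omega)]
      have := hb.1
      omega
    · rw [gad m j (Or.inr rfl) hj]
      have := P.hd2 j hj
      omega
    · exact absurd rfl hxy
    · exact top m _ (by omega) hk'
    · rw [add_comm]; exact top b _ hb.1 hk
    · have := ev (2 * D + (2 * D - d j)) _ _ hk (c j).2
      rintro ⟨w, hw⟩
      exact this ⟨w, by omega⟩
    · rw [add_comm]; exact top m _ (by omega) hk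
    · have := ev (2 * D + 2 * D) _ _ hk hk'
      rintro ⟨w, hw⟩
      exact this ⟨w, by omega⟩

end Abstract

end Pool.Agent.H972Z.SumNP
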