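import Mathlib
import Pool.Agent.H646Z.SumTops

set_option autoImplicit false

namespace Pool.Agent.H972Z.SumNP

open Finset Pool.Agent.H646Z.SumG

/-- lattice vertices -/
def Vt (m : ℕ) (H : Finset ℕ) (a : ℕ) : Prop := 1 ≤ a ∧ a < m ∧ a ∉ H

instance (m : ℕ) (H : Finset ℕ) (a : ℕ) : Decidable (Vt m H a) := by unfold Vt; infer_instance

/-- numerical side conditions -/
structure Par (m n K W D : ℕ) (H : Finset ℕ) (d : ℕ → ℕ) : Prop where
  hK : H.card + n + 4 ≤ K
  hW : 20 * K + 20 ≤ W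
  hWD : W ≤ D
  hHW : ∀ h ∈ H, W ∣ h
  hH1 : ∀ h ∈ H, W ≤ h
  hH2 : ∀ h ∈ H, h + W ≤ D
  hdW : ∀ i < n, W ∣ d i
  hd1 : ∀ i < n, D ≤ d i
  hd2 : ∀ i < n, d i < 2 * D
  dinj : ∀ i < n, ∀ j < n, d i = d j → i = j
  hm1 : 10 * D + 1 ≤ m
  hm2 : (2 * ((K + 2) * (K + 2 + K)) + 1) * (K + 2 + K + 1 + 2 * (5 * D + K)) + K + 1 ≤ m

/-- constraints coming from a sum labelling -/
structure Lab (m n : ℕ) (H : Finset ℕ) (d : ℕ → ℕ) (T : Set ℚ) (f g : ℕ → ℚ) (X : Finset ℚ) :
    Prop where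
  pos : ∀ t ∈ T, 0 < t
  fT : ∀ a, Vt m H a → f a ∈ T
  gT : ∀ i < n, g i ∈ T
  finj : ∀ a b, Vt m H a → Vt m H b → f a = f b → a = b
  cover : ∀ t ∈ T, (∃ a, Vt m H a ∧ f a = t) ∨ (∃ i < n, g i = t) ∨ t ∈ X
  EE : ∀ a b, Vt m H a → Vt m H b → a ≠ b → (f a + f b ∈ T ↔ a + b ≤ m ∧ a + b ∉ H)
  EG : ∀ i < n, ∀ a, Vt m H a → g i + f a ∈ T → a = d i
  GD : ∀ i < n, g i + f (d i) ∈ T
  XE : ∀ t ∈ X, ∀ a, Vt m H a → t + f a ∉ T
  Xc : X.card ≤ 4

theorem sep {W a b : ℕ} (ha : W ∣ a) (hb : W ∣ b) (h : a ≠ b) : a + W ≤ b ∨ b + W ≤ a := by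
  obtain ⟨x, rfl⟩ := ha
  obtain ⟨y, rfl⟩ := hb
  rcases lt_trichotomy x y with h1 | h1 | h1
  · left
    calc W * x + W = W * (x + 1) := by ring
      _ ≤ W * y := Nat.mul_le_mul_left _ h1
  · exact absurd (by rw [h1]) h
  · right
    calc W * y + W = W * (y + 1) := by ring
      _ ≤ W * x := Nat.mul_le_mul_left _ h1

/-- labels of lattice vertices -/
def labA (m : ℕ) (H : Finset ℕ) (f : ℕ → ℚ) : Finset ℚ := ((range m).filter (Vt m H)).image f

theorem mem_labA {m : ℕ} {H : Finset ℕ} {f : ℕ → ℚ} {y : ℚ} :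
    y ∈ labA m H f ↔ ∃ a, Vt m H a ∧ f a = y := by
  unfold labA
  simp only [mem_image, mem_filter, mem_range]
  exact ⟨fun ⟨c, h, e⟩ => ⟨c, h.2, e⟩, fun ⟨c, h, e⟩ => ⟨c, ⟨h.2.1, h⟩, e⟩⟩

/-- other labels -/
def extY (n : ℕ) (g : ℕ → ℚ) (X : Finset ℚ) : Finset ℚ := X ∪ (range n).image g

variable {m n K W D : ℕ} {H : Finset ℕ} {d : ℕ → ℕ} {T : Set ℚ} {f g : ℕ → ℚ} {X : Finset ℚ}

theorem Lab.card_Y (L : Lab m n H d T f g X) : (extY n g X).card ≤ n + 4 := by
  have h1 := card_union_le X ((range n).image g)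
  have h2 := card_image_le (s := range n) (f := g)
  have h3 := L.Xc
  rw [card_range] at h2
  unfold extY
  omega

theorem Lab.mem_Y (L : Lab m n H d T f g X) {t : ℚ} (ht : t ∈ T) (h : t ∉ labA m H f) :
    t ∈ extY n g X := by
  rcases L.cover t ht with h1 | ⟨i, hi, h1⟩ | h1
  · exact absurd (mem_labA.2 h1) h
  · exact mem_union_right _ (mem_image.2 ⟨i, mem_range.2 hi, h1⟩)
  · exact mem_union_left _ h1

theorem Lab.top_bound (L : Lab m n H d T f g X) (P : Par m n K W D H d) (a : ℕ)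
    (ha : Vt m H a) : (tops (labA m H f) (f a)).card ≤ a + K := by
  classical
  have hsub : tops (labA m H f) (f a) ⊆
      (insert a ((H.image fun h => h - a) ∪ Ioo (m - a) m)).image f ∪
        (extY n g X).image fun t => t - f a := by
    intro y hy
    obtain ⟨h1, h2⟩ := mem_filter.1 hy
    obtain ⟨b, hb, rfl⟩ := mem_labA.1 h1
    by_cases c : b ≠ a ∧ b + a ≤ m ∧ b + a ∉ H
    · refine mem_union_right _ (mem_image.2 ⟨f b + f a, L.mem_Y ((L.EE b a hb ha c.1).2 c.2) h2,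
        by ring⟩)
    · refine mem_union_left _ (mem_image.2 ⟨b, ?_, rfl⟩)
      simp only [mem_insert, mem_union, mem_Ioo, mem_image]
      by_cases c1 : b = a
      · exact Or.inl c1
      by_cases c2 : b + a ∈ H
      · exact Or.inr (Or.inl ⟨b + a, c2, by omega⟩)
      · have : ¬ b + a ≤ m := fun h => c ⟨c1, h, c2⟩
        have := hb.2.1
        have := hb.1
        exact Or.inr (Or.inr ⟨by omega, by omega⟩)
  have h1 := card_le_card hsub
  have h2 := card_union_le ((insert a ((H.image fun h => h - a) ∪ Ioo (m - a) m)).image f)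
    ((extY n g X).image fun t => t - f a)
  have h3 := card_image_le (f := f) (s := insert a ((H.image fun h => h - a) ∪ Ioo (m - a) m))
  have h4 := card_insert_le a ((H.image fun h => h - a) ∪ Ioo (m - a) m)
  have h5 := card_union_le (H.image fun h => h - a) (Ioo (m - a) m)
  have h6 := Nat.card_Ioo (m - a) m
  have h7 := card_image_le (f := fun h => h - a) (s := H)
  have h8 := card_image_le (f := fun t => t - f a) (s := extY n g X)
  have h9 := L.card_Y
  have h10 := P.hK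
  obtain ⟨a1, a2, _⟩ := ha
  omega

theorem card_low (m : ℕ) (H : Finset ℕ) (a' : ℕ) (h : a' < m) :
    a' ≤ ((Icc 1 a').filter (Vt m H)).card + H.card := by
  have hsub : Icc 1 a' ⊆ (Icc 1 a').filter (Vt m H) ∪ H := by
    intro x hx
    by_cases hH : x ∈ H
    · exact mem_union_right _ hH
    · have := mem_Icc.1 hx
      exact mem_union_left _ (mem_filter.2 ⟨hx, by omega, by omega, hH⟩)
  have h1 := card_le_card hsub
  have h2 := card_union_le ((Icc 1 a').filter (Vt m H)) H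
  rw [Nat.card_Icc] at h1
  omega

theorem Lab.card_A (L : Lab m n H d T f g X) (hm : 1 ≤ m) :
    m ≤ (labA m H f).card + H.card + 1 := by
  have h1 := card_low m H (m - 1) (by omega)
  have h2 : (Icc 1 (m - 1)).filter (Vt m H) = (range m).filter (Vt m H) := by
    ext x
    simp only [mem_filter, mem_Icc, mem_range, Vt]
    constructor
    · rintro ⟨-, h⟩
      exact ⟨h.2.1, h⟩
    · rintro ⟨-, h⟩
      exact ⟨⟨h.1, by have := h.2.1; omega⟩, h⟩
  have h3 : (labA m H f).card = ((range m).filter (Vt m H)).card := by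
    unfold labA
    refine card_image_of_injOn fun a ha b hb e => ?_
    exact L.finj a b (mem_filter.1 (mem_coe.1 ha)).2 (mem_filter.1 (mem_coe.1 hb)).2 e
  rw [h2] at h1
  omega

theorem Par.small (P : Par m n K W D H d) {j : ℕ} (h1 : 1 ≤ j) (h2 : j < W) : Vt m H j := by
  have := P.hm1
  have := P.hWD
  exact ⟨h1, by omega, fun h => by have := P.hH1 j h; omega⟩

theorem Par.big (P : Par m n K W D H d) {j : ℕ} (h1 : D ≤ j) : j ∉ H := fun h => by
  have := P.hH2 j h
  have := P.hW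
  omega

theorem Par.vd (P : Par m n K W D H d) {i : ℕ} (hi : i < n) : Vt m H (d i) := by
  have := P.hd1 i hi
  have := P.hd2 i hi
  have := P.hm1
  have := P.hW
  have := P.hWD
  exact ⟨by omega, by omega, P.big (by omega)⟩

/-- normalised situation -/
structure Nrm (m n K W D : ℕ) (H : Finset ℕ) (d : ℕ → ℕ) (T : Set ℚ) (f g : ℕ → ℚ)
    (X : Finset ℚ) (δ : ℚ) (p : ℕ → ℕ) : Prop where
  L : Lab m n H d T f g X
  P : Par m n K W D H d
  hδ : 0 < δ
  hp : ∀ a, Vt m H a → a ≤ 5 * D → f a = p a * δ ∧ p a ≤ a + K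

theorem exists_nrm (L : Lab m n H d T f g X) (P : Par m n K W D H d) :
    ∃ δ p, Nrm m n K W D H d T f g X δ p := by
  classical
  have hW := P.hW
  have hK := P.hK
  have hm1 := P.hm1
  have hm2 := P.hm2
  have hA := L.card_A (by omega)
  obtain ⟨δ, hδ, h⟩ := structA (labA m H f) f K (K + 2) (5 * D) (Vt m H)
    (fun a ha => L.pos _ (L.fT a ha)) (fun a ha => L.top_bound P a ha)
    (fun j h1 h2 => P.small h1 (by omega)) (fun j j' h1 h2 e => L.finj j j' h1 h2 e)
    (by omega) (by omega)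
  have h' : ∀ a, ∃ q : ℕ, Vt m H a → a ≤ 5 * D → f a = q * δ ∧ q ≤ a + K := by
    intro a
    by_cases c : Vt m H a ∧ a ≤ 5 * D
    · obtain ⟨q, hq⟩ := h a c.1 c.2
      exact ⟨q, fun _ _ => hq⟩
    · exact ⟨0, fun h1 h2 => absurd ⟨h1, h2⟩ c⟩
  choose p hp using h'
  exact ⟨δ, p, L, P, hδ, hp⟩

variable {δ : ℚ} {p : ℕ → ℕ}

theorem Nrm.ppos (N : Nrm m n K W D H d T f g X δ p) {a : ℕ} (ha : Vt m H a) (h : a ≤ 5 * D) :
    1 ≤ p a := by
  have h2 := N.L.pos _ (N.L.fT a ha)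
  rw [(N.hp a ha h).1] at h2
  by_contra hc
  have : p a = 0 := by omega
  rw [this] at h2
  simp at h2

theorem Nrm.pinj (N : Nrm m n K W D H d T f g X δ p) {a b : ℕ} (ha : Vt m H a) (h : a ≤ 5 * D)
    (hb : Vt m H b) (h' : b ≤ 5 * D) (e : p a = p b) : a = b :=
  N.L.finj a b ha hb (by rw [(N.hp a ha h).1, (N.hp b hb h').1, e])

theorem Nrm.miss (N : Nrm m n K W D H d T f g X δ p) (a' : ℕ) (h : a' ≤ 5 * D) :
    ∃ Q : Finset ℕ, Q.card ≤ 2 * K ∧
      ∀ x, 1 ≤ x → x ≤ a' + K → x ∉ Q → ∃ a, Vt m H a ∧ a ≤ a' ∧ p a = x := by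
  have hm1 := N.P.hm1
  have hK := N.P.hK
  have hE : ∀ a ∈ (Icc 1 a').filter (Vt m H), Vt m H a ∧ a ≤ a' := fun a ha =>
    ⟨(mem_filter.1 ha).2, (mem_Icc.1 (mem_filter.1 ha).1).2⟩
  refine ⟨Icc 1 (a' + K) \ ((Icc 1 a').filter (Vt m H)).image p, ?_, ?_⟩
  · have h1 := card_low m H a' (by omega)
    rw [card_sdiff_of_subset, card_image_of_injOn, Nat.card_Icc]
    · omega
    · intro a ha b hb e
      obtain ⟨a1, a2⟩ := hE a ha
      obtain ⟨b1, b2⟩ := hE b hb
      exact N.pinj a1 (by omega) b1 (by omega) e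
    · intro x hx
      obtain ⟨a, ha, rfl⟩ := mem_image.1 hx
      obtain ⟨a1, a2⟩ := hE a ha
      have h1 := (N.hp a a1 (by omega)).2
      exact mem_Icc.2 ⟨N.ppos a1 (by omega), by omega⟩
  · intro x h1 h2 h3
    have : x ∈ ((Icc 1 a').filter (Vt m H)).image p := by
      by_contra hc
      exact h3 (mem_sdiff.2 ⟨mem_Icc.2 ⟨h1, h2⟩, hc⟩)
    obtain ⟨a, ha, rfl⟩ := mem_image.1 this
    exact ⟨a, (hE a ha).1, (hE a ha).2, rfl⟩

/-- some small vertex shifts a given position off a small set -/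
theorem Nrm.shift (N : Nrm m n K W D H d T f g X δ p) (Q : Finset ℕ) (hQ : Q.card ≤ 2 * K)
    (e : ℕ) : ∃ z, 1 ≤ z ∧ z ≤ 2 * K + 1 ∧ e + p z ∉ Q := by
  have hW := N.P.hW
  have hWD := N.P.hWD
  obtain ⟨y, hy, hy'⟩ := exists_mem_notMem_of_card_lt_card (s := Q)
    (t := (Icc 1 (2 * K + 1)).image fun z => e + p z) (by
      rw [card_image_of_injOn, Nat.card_Icc]
      · omega
      · intro a ha b hb h
        simp only [coe_Icc, Set.mem_Icc] at ha hb
        exact N.pinj (N.P.small ha.1 (by omega)) (by omega) (N.P.small hb.1 (by omega)) (by omega)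
          (by simpa using h))
  obtain ⟨z, hz, rfl⟩ := mem_image.1 hy
  exact ⟨z, (mem_Icc.1 hz).1, (mem_Icc.1 hz).2, hy'⟩

theorem Nrm.lower (N : Nrm m n K W D H d T f g X δ p) {a : ℕ} (ha : Vt m H a) (h : a ≤ 5 * D) :
    a ≤ p a + 6 * K + 2 := by
  classical
  have hW := N.P.hW
  have hWD := N.P.hWD
  have hm1 := N.P.hm1
  have hK := N.P.hK
  by_contra hc
  obtain ⟨Q, hQ, hQ'⟩ := N.miss (p a + 2 * K + 1) (by omega)
  obtain ⟨z, z1, z2, hz⟩ := N.shift Q hQ (p a)
  have vz : Vt m H z := N.P.small z1 (by omega)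
  have pz := N.hp z vz (by omega)
  have pz0 := N.ppos vz (by omega)
  obtain ⟨b, vb, b1, b2⟩ := hQ' (p a + p z) (by omega) (by omega) hz
  have pb := N.hp b vb (by omega)
  have pa := N.hp a ha h
  have hfb : f b = f a + f z := by
    rw [pb.1, pa.1, pz.1, b2]; push_cast; ring
  have vx : ∀ x ∈ Ioc (m - a) (m - b), Vt m H x := by
    intro x hx
    have := mem_Ioc.1 hx
    have := vb.1
    exact ⟨by omega, by omega, N.P.big (by omega)⟩
  have hsub : (Ioc (m - a) (m - b)).image (fun x => f x + f b) ⊆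
      tops (labA m H f) (-f z) ∪ extY n g X := by
    intro y hy
    obtain ⟨x, hx, rfl⟩ := mem_image.1 hy
    have hx' := mem_Ioc.1 hx
    have h1 : f x + f b ∈ T :=
      (N.L.EE x b (vx x hx) vb (by omega)).2 ⟨by omega, N.P.big (by omega)⟩
    by_cases c : f x + f b ∈ labA m H f
    · refine mem_union_left _ (mem_filter.2 ⟨c, fun hc' => ?_⟩)
      obtain ⟨v, hv, e⟩ := mem_labA.1 hc'
      have h2 : f x + f a ∈ T := by
        have : f x + f a = f v := by rw [e, hfb]; ring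
        rw [this]; exact N.L.fT v hv
      have := ((N.L.EE x a (vx x hx) ha (by omega)).1 h2).1
      omega
    · exact mem_union_right _ (N.L.mem_Y h1 c)
  have h1 := card_le_card hsub
  rw [card_image_of_injOn, Nat.card_Ioc] at h1
  · have h2 := card_union_le (tops (labA m H f) (-f z)) (extY n g X)
    rw [card_tops_neg] at h2
    have h3 := N.L.top_bound N.P z vz
    have h4 := N.L.card_Y
    omega
  · intro x hx y hy e
    exact N.L.finj x y (vx x hx) (vx y hy) (by simpa using e)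

theorem Nrm.held (N : Nrm m n K W D H d T f g X δ p) {e : ℕ} (h1 : 8 * K + 5 ≤ e)
    (h2 : e + 2 * K + 1 ≤ 5 * D) (h3 : ∀ h ∈ H, h + 12 * K + 4 < e ∨ e + 12 * K + 4 < h) :
    ∃ z, Vt m H z ∧ f z = e * δ := by
  have hW := N.P.hW
  have hWD := N.P.hWD
  have hm1 := N.P.hm1
  obtain ⟨Q, hQ, hQ'⟩ := N.miss (5 * D) le_rfl
  obtain ⟨y, hy, hy'⟩ := exists_mem_notMem_of_card_lt_card
    (s := Q ∪ Q.image fun q => e - q) (t := Icc 1 (4 * K + 1)) (by
      have a1 := card_union_le Q (Q.image fun q => e - q)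
      have a2 := card_image_le (s := Q) (f := fun q => e - q)
      rw [Nat.card_Icc]
      omega)
  simp only [mem_union, mem_image, mem_Icc, not_or, not_exists, not_and] at hy hy'
  obtain ⟨a, va, a1, a2⟩ := hQ' y hy.1 (by omega) hy'.1
  obtain ⟨b, vb, b1, b2⟩ := hQ' (e - y) (by omega) (by omega) (fun h => hy'.2 _ h (by omega))
  have pa := N.hp a va a1
  have pb := N.hp b vb b1
  have la := N.lower va a1
  have lb := N.lower vb b1
  have hT : (e : ℚ) * δ ∈ T := by
    have := (N.L.EE a b va vb (by rintro rfl; omega)).2 ⟨by omega, fun h => by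
      have := h3 _ h; omega⟩
    rw [pa.1, pb.1] at this
    have e2 : e = p a + p b := by omega
    rw [e2]; push_cast; rw [add_mul]; exact this
  obtain ⟨z, z1, z2, hz⟩ := N.shift Q hQ e
  have vz : Vt m H z := N.P.small z1 (by omega)
  have pz := N.hp z vz (by omega)
  obtain ⟨c, vc, c1, c2⟩ := hQ' (e + p z) (by omega) (by omega) hz
  have hT2 : (e : ℚ) * δ + f z ∈ T := by
    have := N.L.fT c vc
    rw [(N.hp c vc c1).1, c2] at this
    rw [pz.1]; push_cast at this; rw [add_mul] at this; exact this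
  rcases N.L.cover _ hT with h | ⟨i, hi, h⟩ | h
  · exact h
  · have := N.L.EG i hi z vz (by rw [h]; exact hT2)
    have := N.P.hd1 i hi
    omega
  · exact absurd hT2 (N.L.XE _ h z vz)

theorem Nrm.held_big (N : Nrm m n K W D H d T f g X δ p) {e : ℕ} (h1 : D ≤ e + 7 * K + 5)
    (h2 : e ≤ 4 * D + 2 * K) : ∃ z, Vt m H z ∧ f z = e * δ := by
  have hW := N.P.hW
  have hWD := N.P.hWD
  exact N.held (by omega) (by omega) fun h hh => by have := N.P.hH2 h hh; omega

theorem Par.nbr (P : Par m n K W D H d) {v : ℕ} (hv : Vt m H v) :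
    ∃ y, 1 ≤ y ∧ y ≤ 3 ∧ v ≠ y ∧ v + y ≤ m ∧ v + y ∉ H := by
  have hW := P.hW
  have hWD := P.hWD
  have hm1 := P.hm1
  have hv2 := hv.2.1
  by_cases c : m < v + 3
  · exact ⟨1, le_rfl, by omega, by omega, by omega, P.big (by omega)⟩
  · have key : ∀ y y', y ≤ 3 → y' ≤ 3 → y ≠ y' → v + y ∈ H → v + y' ∉ H := by
      intro y y' h1 h2 h3 h4 h5
      have := sep (P.hHW _ h4) (P.hHW _ h5) (by omega)
      omega
    by_cases c1 : v ≠ 1 ∧ v + 1 ∉ H
    · exact ⟨1, le_rfl, by omega, c1.1, by omega, c1.2⟩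
    by_cases c2 : v ≠ 2 ∧ v + 2 ∉ H
    · exact ⟨2, by omega, by omega, c2.1, by omega, c2.2⟩
    refine ⟨3, by omega, le_rfl, ?_, by omega, ?_⟩
    · rintro rfl
      exact c1 ⟨by omega, fun h => by have := P.hH1 _ h; omega⟩
    · intro h3
      have k1 := key 3 1 le_rfl (by omega) (by omega) h3
      have k2 := key 3 2 le_rfl (by omega) (by omega) h3
      by_cases e : v = 1
      · exact c2 ⟨by omega, k2⟩
      · exact c1 ⟨e, k1⟩

theorem Nrm.dfacts (N : Nrm m n K W D H d T f g X δ p) {i : ℕ} (hi : i < n) :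
    f (d i) = p (d i) * δ ∧ p (d i) ≤ d i + K ∧ d i ≤ p (d i) + 6 * K + 2 ∧ D ≤ d i ∧
      d i < 2 * D := by
  have h1 := N.P.hd1 i hi
  have h2 := N.P.hd2 i hi
  have h3 := N.hp _ (N.P.vd hi) (by omega)
  exact ⟨h3.1, h3.2, N.lower (N.P.vd hi) (by omega), h1, h2⟩

/-- a gadget label plus a held multiple different from that of `d i` is not a label -/
theorem Nrm.gad (N : Nrm m n K W D H d T f g X δ p) {i : ℕ} (hi : i < n) {e : ℕ}
    (he : ∃ z, Vt m H z ∧ f z = e * δ) (hT : g i + e * δ ∈ T) : e = p (d i) := by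
  obtain ⟨z, vz, hz⟩ := he
  have := N.L.EG i hi z vz (by rw [hz]; exact hT)
  subst this
  rw [(N.dfacts hi).1] at hz
  have := mul_right_cancel₀ N.hδ.ne' hz
  exact_mod_cast this.symm

theorem Nrm.target (N : Nrm m n K W D H d T f g X δ p) {i : ℕ} (hi : i < n) :
    g i + f (d i) ∈ X := by
  have hW := N.P.hW
  have hWD := N.P.hWD
  obtain ⟨d1, d2, d3, d4, d5⟩ := N.dfacts hi
  rcases N.L.cover _ (N.L.GD i hi) with ⟨v, hv, h⟩ | ⟨j, hj, h⟩ | h
  · exfalso
    obtain ⟨y, y1, y2, y3, y4⟩ := N.P.nbr hv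
    have vy : Vt m H y := N.P.small y1 (by omega)
    have py := N.hp y vy (by omega)
    have py0 := N.ppos vy (by omega)
    have h1 := (N.L.EE v y hv vy y3).2 y4
    have := N.gad hi (e := p (d i) + p y) (N.held_big (by omega) (by omega)) (by
      rw [h, d1, py.1] at h1; push_cast; rw [add_mul, ← add_assoc]; exact h1)
    omega
  · exfalso
    obtain ⟨e1, e2, e3, e4, e5⟩ := N.dfacts hj
    have h1 := N.L.GD j hj
    have := N.gad hi (e := p (d i) + p (d j)) (N.held_big (by omega) (by omega)) (by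
      rw [h, d1, e1] at h1; push_cast; rw [add_mul, ← add_assoc]; exact h1)
    omega
  · exact h

theorem Nrm.same (N : Nrm m n K W D H d T f g X δ p) {i j : ℕ} (hi : i < n) (hj : j < n)
    (hij : d i < d j) (h : g i + f (d i) = g j + f (d j)) : d j - d i ∈ H := by
  have hW := N.P.hW
  have hWD := N.P.hWD
  obtain ⟨d1, d2, d3, d4, d5⟩ := N.dfacts hi
  obtain ⟨e1, e2, e3, e4, e5⟩ := N.dfacts hj
  have hs := sep (N.P.hdW i hi) (N.P.hdW j hj) hij.ne
  by_contra hc
  have hdv : W ∣ d j - d i := Nat.dvd_sub (N.P.hdW j hj) (N.P.hdW i hi)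
  have hgi : g i ∈ T := N.L.gT i hi
  have := N.gad hj (e := p (d j) - p (d i)) (N.held (by omega) (by omega) fun h hh => by
    have := sep (N.P.hHW h hh) hdv (by rintro rfl; exact hc hh)
    omega) (by
      have e6 : ((p (d j) - p (d i) : ℕ) : ℚ) = p (d j) - p (d i) := by
        rw [Nat.cast_sub (by omega)]
      rw [e6]
      have : g j + ((p (d j) : ℚ) - p (d i)) * δ = g i := by
        rw [d1, e1] at h; linarith
      rw [this]; exact hgi)
  omega

theorem Nrm.top (N : Nrm m n K W D H d T f g X δ p) :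
    ∃ t ∈ X, ∀ i < n, g i + f (d i) ≠ t := by
  have hW := N.P.hW
  have hWD := N.P.hWD
  have hm1 := N.P.hm1
  have hK := N.P.hK
  have v1 : Vt m H 1 := N.P.small le_rfl (by omega)
  obtain ⟨x, hx, hmax⟩ := exists_max_image ((range m).filter (Vt m H)) f
    ⟨1, mem_filter.2 ⟨mem_range.2 v1.2.1, v1⟩⟩
  have vx : Vt m H x := (mem_filter.1 hx).2
  have hmax' : ∀ a, Vt m H a → f a ≤ f x := fun a ha =>
    hmax a (mem_filter.2 ⟨mem_range.2 ha.2.1, ha⟩)
  have hxl : m ≤ x + 2 * K + 1 := by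
    have h1 := N.L.top_bound N.P x vx
    have h2 : tops (labA m H f) (f x) = labA m H f := by
      refine filter_true_of_mem fun y hy hc => ?_
      obtain ⟨a, ha, rfl⟩ := mem_labA.1 hy
      obtain ⟨b, hb, e⟩ := mem_labA.1 hc
      have := hmax' b hb
      have := N.L.pos _ (N.L.fT a ha)
      linarith
    rw [h2] at h1
    have := N.L.card_A (by omega)
    omega
  obtain ⟨y, y1, y2, y3, y4⟩ := N.P.nbr vx
  have vy : Vt m H y := N.P.small y1 (by omega)
  have py := N.hp y vy (by omega)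
  have py0 := N.ppos vy (by omega)
  have hT := (N.L.EE x y vx vy y3).2 y4
  rcases N.L.cover _ hT with ⟨v, hv, h⟩ | ⟨j, hj, h⟩ | h
  · have := hmax' v hv
    have := N.L.pos _ (N.L.fT y vy)
    linarith
  · exfalso
    obtain ⟨e1, e2, e3, e4, e5⟩ := N.dfacts hj
    obtain ⟨z, vz, hz⟩ := N.held_big (e := p y + p (d j)) (by omega) (by omega)
    have va : Vt m H (5 * D) := ⟨by omega, by omega, N.P.big (by omega)⟩
    have pa := N.hp _ va le_rfl
    have la := N.lower va le_rfl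
    have hxz : x ≠ z := by
      rintro rfl
      have h1 := hmax' _ va
      rw [hz, pa.1] at h1
      have h2 : (p (5 * D) : ℚ) ≤ (p y + p (d j) : ℕ) := le_of_mul_le_mul_right h1 N.hδ
      have h3 : p (5 * D) ≤ p y + p (d j) := by exact_mod_cast h2
      omega
    have h1 : f x + f z ∈ T := by
      have := N.L.GD j hj
      rw [h, e1, py.1] at this
      rw [hz]; push_cast; rw [add_mul, ← add_assoc]; exact this
    have h2 := ((N.L.EE x z vx vz hxz).1 h1).1
    have pz := N.hp z vz (by omega)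
    rw [pz.1] at hz
    have h3 : p z = p y + p (d j) := by exact_mod_cast mul_right_cancel₀ N.hδ.ne' hz
    omega
  · refine ⟨_, h, fun i hi e => ?_⟩
    obtain ⟨d1, d2, d3, d4, d5⟩ := N.dfacts hi
    have := N.gad hi (e := p (d i) - p y) (N.held_big (by omega) (by omega)) (by
      have e6 : ((p (d i) - p y : ℕ) : ℚ) = p (d i) - p y := by
        rw [Nat.cast_sub (by omega)]
      rw [e6]
      have : g i + ((p (d i) : ℚ) - p y) * δ = f x := by
        rw [d1, py.1] at e; linarith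
      rw [this]; exact N.L.fT x vx)
    omega

theorem colour (L : Lab m n H d T f g X) (P : Par m n K W D H d) :
    ∃ c : ℕ → Fin 3, ∀ i < n, ∀ j < n, d i < d j → c i = c j → d j - d i ∈ H := by
  classical
  obtain ⟨δ, p, N⟩ := exists_nrm L P
  obtain ⟨t, ht, hne⟩ := N.top
  have hc : Fintype.card (X.erase t) ≤ Fintype.card (Fin 3) := by
    have := L.Xc
    rw [Fintype.card_coe, card_erase_of_mem ht, Fintype.card_fin]
    omega
  obtain ⟨e⟩ := Function.Embedding.nonempty_of_card_le hc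
  refine ⟨fun i => if h : i < n then e ⟨g i + f (d i), mem_erase.2 ⟨hne i h, N.target h⟩⟩ else 0,
    fun i hi j hj hij h => ?_⟩
  simp only [dif_pos hi, dif_pos hj] at h
  exact N.same hi hj hij (congrArg Subtype.val (e.injective h))

end Pool.Agent.H972Z.SumNP
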